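import Pool.Agent.H48.AB.Loc

/-!
Pluricanonical forms on `X` from pluricanonical forms of the base with regular pull-backs and traces
of products of canonical forms of the factors.
-/

set_option autoImplicit false
set_option linter.overlappingInstances false
set_option linter.unusedSectionVars false

open FF IntermediateField
open Pool.Agent.W602.GT Pool.Agent.W603.LV Pool.Agent.W619.PQ Pool.Agent.W619.TW
  Pool.Agent.W619.Y Q36.SD

namespace Pool.Agent.H48.AB

section

variable {k L M : Type} [Field k] [CharZero k] [Field L] [Field M]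
  [Algebra k L] [Algebra k M] [Algebra L M] [IsScalarTower k L M]
  {r n w0 : ℕ} (F : Fin r → IntermediateField k M) {w : Fin r → ℕ}

/-- the value of the exterior product of `d u₁ ∧ … ∧ d u_{w0}` and of canonical forms of the
factors -/
noncomputable def rel (u : Fin w0 → L) (y : ∀ i, Fin (w i) → F i)
    (e : Fin n ≃ (Fin w0 ⊕ (Σ i, Fin (w i)))) (a : ∀ i, F i) (D : Fin n → Derivation k M M) : M :=
  (∏ i, (a i : M)) * (Matrix.of fun s b => Sum.elim (fun c => D s (algebraMap L M (u c)))
    (fun x : (Σ i, Fin (w i)) => D s (y x.1 x.2 : M)) (e b)).det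

theorem rel_pluri (u : Fin w0 → L) (y : ∀ i, Fin (w i) → F i)
    (e : Fin n ≃ (Fin w0 ⊕ (Σ i, Fin (w i)))) (a : ∀ i, F i) :
    IsPluri 1 (rel F u y e a) := by
  intro A D
  unfold rel
  have e1 : (Matrix.of fun s b => Sum.elim (fun c => (∑ j, A s j • D j) (algebraMap L M (u c)))
      (fun x : (Σ i, Fin (w i)) => (∑ j, A s j • D j) (y x.1 x.2 : M)) (e b)) =
      A * Matrix.of fun s b => Sum.elim (fun c => D s (algebraMap L M (u c)))
        (fun x : (Σ i, Fin (w i)) => D s (y x.1 x.2 : M)) (e b) := by
    ext s b
    rw [Matrix.of_apply, Matrix.mul_apply]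
    simp only [Matrix.of_apply]
    rcases e b with c | x
    · simp only [Sum.elim_inl]
      exact Pool.Agent.Y172.sum_smul_apply ..
    · simp only [Sum.elim_inr]
      exact Pool.Agent.Y172.sum_smul_apply ..
  rw [e1, Matrix.det_mul, pow_one]
  ring

end

section

variable {k L M : Type} [Field k] [CharZero k] [Field L] [Field M]
  [Algebra k L] [Algebra k M] [Algebra L M] [IsScalarTower k L M] [FiniteDimensional L M]
  [Algebra.EssFiniteType k L] {r n w0 : ℕ} (F : Fin r → IntermediateField k M)
  [hF : ∀ i, Algebra.EssFiniteType k (F i)] {w : Fin r → ℕ}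

theorem trace_local (hn : Algebra.trdeg k L = n)
    (hw : ∀ i, Algebra.trdeg k (F i) = w i) {y : ∀ i, Fin (w i) → F i}
    {E : ∀ i, Fin (w i) → Derivation k (F i) (F i)} (hy : ∀ i, IsTranscendenceBasis k (y i))
    (hE : ∀ i a b, E i a (y i b) = if a = b then 1 else 0)
    (e : Fin n ≃ (Fin w0 ⊕ (Σ i, Fin (w i))))
    {ω : ∀ i, (Fin (w i) → Derivation k (F i) (F i)) → F i} (hω : ∀ i, IsPluri 1 (ω i))
    (hreg : ∀ i, ∀ P : Place k (F i), Divisorial (w i) P → RegAt P (ω i))
    (u : Fin w0 → L) {P : Place k L} (hP : Divisorial n P) {yP : Fin n → L}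
    {EP : Fin n → Derivation k L L} {i0 : Fin n} (hl : Pool.Agent.Y172.Loc P yP EP i0)
    {EP' : Fin n → Derivation k M M}
    (hEP' : ∀ i f, EP' i (algebraMap L M f) = algebraMap L M (EP i f))
    (s : Fin w0 → Fin n) (N' : Matrix (Fin w0) (Fin n) L)
    (hN : (Matrix.of fun j a => EP a (u j) : Matrix (Fin w0) (Fin n) L) =
      (Matrix.of fun j a => EP a (u j) : Matrix (Fin w0) (Fin n) L).submatrix id s * N')
    (hN' : ∀ i j, P.Reg (N' i j)) :
    ∃ t : L, P.Reg t ∧ Algebra.trace L M (rel F u y e (fun i => ω i (E i)) EP') =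
      ((Matrix.of fun j a => EP a (u j) : Matrix (Fin w0) (Fin n) L).submatrix id s).det * t := by
  classical
  have hnM : Algebra.trdeg k M = n := Pool.Agent.Y172.trdeg_up (K := L) hn
  have hess : Algebra.EssFiniteType k M := Q36.HB.ess_up k L M
  obtain ⟨Ns, hNs⟩ : ∃ Ns : Matrix (Fin w0) (Fin w0) L, Ns =
    (Matrix.of fun j a => EP a (u j) : Matrix (Fin w0) (Fin n) L).submatrix id s := ⟨_, rfl⟩
  rw [← hNs] at hN ⊢
  let N1 : Matrix (Fin w0) (Fin n) M := N'.map (algebraMap L M)
  let u1 : Fin n → M := fun t => algebraMap L M (yP t)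
  refine ⟨Algebra.trace L M (wedge F N1 u1 y e (fun i => ω i (E i)) EP'), ?_, ?_⟩
  · refine Pool.Agent.Y692.NT.trace_reg P _ fun Q e' hQ => ?_
    have hQd : Divisorial n Q := Pool.Agent.Y172.divisorial_up hQ hP
    have h1 := Pool.Agent.Y172.down_ge hnM hQ hQd hl hEP'
      (wedge_pluri F N1 u1 y e (fun i => ω i (E i))) (c := 0) (fun G' hG' => by
        rcases wedge_reg F hnM hw hy hE e hω hreg Q hQd N1 u1
          (fun c t => hQ.reg.2 (hN' c t)) (fun t => hQ.reg.2 (hl.reg t)) G' hG' with h | h
        · exact Or.inl h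
        · exact Or.inr (by exact_mod_cast h))
    rcases h1 with h1 | h1
    · exact Or.inl h1
    · right
      have h2 : ((1 - e' : ℤ) : ℝ) ≤
          (Q.ord (wedge F N1 u1 y e (fun i => ω i (E i)) EP') : ℝ) := by
        push_cast
        push_cast at h1
        linarith
      exact_mod_cast h2
  · have hval : rel F u y e (fun i => ω i (E i)) EP' =
        algebraMap L M Ns.det * wedge F N1 u1 y e (fun i => ω i (E i)) EP' := by
      unfold rel wedge
      obtain ⟨T, hT⟩ : ∃ T : Matrix (Fin n) (Fin n) M, T = Matrix.of fun s b =>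
          Sum.elim (fun c => ∑ t, N1 c t * EP' s (u1 t))
            (fun x : (Σ i, Fin (w i)) => EP' s (y x.1 x.2 : M)) (e b) := ⟨_, rfl⟩
      have e1 : (Matrix.of fun s b => Sum.elim (fun c => EP' s (algebraMap L M (u c)))
          (fun x : (Σ i, Fin (w i)) => EP' s (y x.1 x.2 : M)) (e b) :
          Matrix (Fin n) (Fin n) M) =
          T * (Matrix.fromBlocks ((algebraMap L M).mapMatrix Ns.transpose) 0 0
            (1 : Matrix (Σ i, Fin (w i)) (Σ i, Fin (w i)) M)).submatrix e e := by
        ext s b
        rw [Matrix.of_apply, Matrix.mul_apply, hT]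
        rw [← Equiv.sum_comp e.symm]
        simp only [Matrix.of_apply, Matrix.submatrix_apply, Equiv.apply_symm_apply]
        rw [Fintype.sum_sum_type]
        simp only [Sum.elim_inl, Sum.elim_inr]
        rcases e b with c | x
        · simp only [Sum.elim_inl, Matrix.fromBlocks_apply₁₁, Matrix.fromBlocks_apply₂₁,
            Matrix.zero_apply, mul_zero, Finset.sum_const_zero, add_zero]
          have h1 : ∀ c', ∑ t, N1 c' t * EP' s (u1 t) = algebraMap L M (N' c' s) := by
            intro c'
            rw [Finset.sum_eq_single s]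
            · change algebraMap L M (N' c' s) * EP' s (algebraMap L M (yP s)) = _
              rw [hEP', hl.dual, if_pos rfl, map_one, mul_one]
            · intro t _ ht
              change _ * EP' s (algebraMap L M (yP t)) = _
              rw [hEP', hl.dual, if_neg (Ne.symm ht), map_zero, mul_zero]
            · intro h
              exact absurd (Finset.mem_univ _) h
          rw [hEP']
          have h2 := congrFun (congrFun hN c) s
          rw [Matrix.of_apply, Matrix.mul_apply] at h2
          rw [h2, map_sum]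
          refine Finset.sum_congr rfl fun c' _ => ?_
          rw [h1, map_mul, RingHom.mapMatrix_apply, Matrix.map_apply, Matrix.transpose_apply,
            mul_comm]
        · simp only [Sum.elim_inr, Matrix.fromBlocks_apply₁₂, Matrix.fromBlocks_apply₂₂,
            Matrix.zero_apply, mul_zero, Finset.sum_const_zero, zero_add]
          rw [Finset.sum_eq_single x]
          · rw [Matrix.one_apply_eq, mul_one]
          · intro x' _ hx'
            rw [Matrix.one_apply_ne hx', mul_zero]
          · intro h
            exact absurd (Finset.mem_univ _) h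
      rw [e1, Matrix.det_mul, Matrix.det_submatrix_equiv_self, Matrix.det_fromBlocks_zero₂₁,
        Matrix.det_one, mul_one, ← RingHom.map_det, Matrix.det_transpose, hT]
      ring
    rw [hval, ← Algebra.smul_def, map_smul, smul_eq_mul]

/-- **The pluricanonical forms.** -/
theorem form_sec (hn : Algebra.trdeg k L = n)
    (hw : ∀ i, Algebra.trdeg k (F i) = w i) {y : ∀ i, Fin (w i) → F i}
    {E : ∀ i, Fin (w i) → Derivation k (F i) (F i)} (hy : ∀ i, IsTranscendenceBasis k (y i))
    (hE : ∀ i a b, E i a (y i b) = if a = b then 1 else 0)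
    (e : Fin n ≃ (Fin w0 ⊕ (Σ i, Fin (w i))))
    {yL : Fin n → L} {E0 : Fin n → Derivation k L L} (hyL : IsTranscendenceBasis k yL)
    (hE0 : ∀ i j, E0 i (yL j) = if i = j then 1 else 0) {E' : Fin n → Derivation k M M}
    (hE' : ∀ i f, E' i (algebraMap L M f) = algebraMap L M (E0 i f))
    {u : Fin w0 → L} (hu : AlgebraicIndependent k u) {m : ℕ} {g : L}
    (hg : ∀ P : Place k L, Divisorial n P → ∀ D : Fin w0 → Derivation k L L,
      (∀ i, DerReg P (D i)) → P.Reg (g * (Matrix.of fun i j => D i (u j)).det ^ m))
    (f : Fin m → ∀ i, (Fin (w i) → Derivation k (F i) (F i)) → F i)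
    (hf1 : ∀ l i, IsPluri 1 (f l i))
    (hf2 : ∀ l i, ∀ P : Place k (F i), Divisorial (w i) P → RegAt P (f l i)) :
    IsSec k L n (fun _ => False) {1} m 0 (fun D => (Matrix.of fun i j => D i (yL j)).det ^ m *
      (g * ∏ l, Algebra.trace L M (rel F u y e (fun i => f l i (E i)) E'))) := by
  classical
  refine ⟨?_, fun P hP _ D hD => ?_, fun v _ hB => absurd hB id⟩
  · intro A D
    have e1 : (Matrix.of fun a b => (∑ j, A a j • D j) (yL b)) =
        A * Matrix.of fun a b => D a (yL b) := by
      ext a b
      rw [Matrix.of_apply, Matrix.mul_apply, Pool.Agent.Y172.sum_smul_apply]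
      rfl
    change (Matrix.of fun a b => (∑ j, A a j • D j) (yL b)).det ^ m * _ = _
    rw [e1, Matrix.det_mul, mul_pow, mul_assoc]
  · obtain ⟨yP, EP, i0, hl⟩ := Pool.Agent.Y172.exists_loc hn hP
    choose EP' hEP' using fun i => Pool.Agent.Y172.exists_lift (L := M) hn (EP i)
    obtain ⟨s, hs, N', hN, hN'⟩ := exists_best P
      (Matrix.of fun j a => EP a (u j) : Matrix (Fin w0) (Fin n) L)
      (exists_minor hl.bas hl.dual hu)
    obtain ⟨δ, hδ⟩ : ∃ δ : L, δ =
      ((Matrix.of fun j a => EP a (u j) : Matrix (Fin w0) (Fin n) L).submatrix id s).det :=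
      ⟨_, rfl⟩
    have hgs : P.Reg (g * δ ^ m) := by
      have h1 := hg P hP (fun i => EP (s i)) (fun i => hl.pres _)
      have h2 : (Matrix.of fun i j => EP (s i) (u j) : Matrix (Fin w0) (Fin w0) L).det = δ := by
        rw [hδ, ← Matrix.det_transpose]
        rfl
      rwa [h2] at h1
    choose t ht htr using fun l => trace_local F hn hw hy hE e (hf1 l) (hf2 l) u hP hl hEP' s N'
      hN hN'
    obtain ⟨c, hc⟩ : ∃ c : L, c =
      (Matrix.of fun i j => EP i (yL j) : Matrix (Fin n) (Fin n) L).det := ⟨_, rfl⟩
    have hG : ∀ l, c * Algebra.trace L M (rel F u y e (fun i => f l i (E i)) E') = δ * t l := by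
      intro l
      have h1 := Pool.Agent.Y172.pluri_coord (hyL.algebraMap_comp (A := M))
        (Pool.Agent.Y172.lift_dual hE0 hE')
        (rel_pluri F u y e (fun i => f l i (E i))) EP'
      have h2 : (Matrix.of fun i j => EP' i (algebraMap L M (yL j)) :
          Matrix (Fin n) (Fin n) M).det = algebraMap L M c := by
        rw [hc, RingHom.map_det]
        congr 1
        ext i j
        rw [Matrix.of_apply, RingHom.mapMatrix_apply, Matrix.map_apply, Matrix.of_apply, hEP']
      have h3 : rel F u y e (fun i => f l i (E i)) EP' =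
          algebraMap L M c * rel F u y e (fun i => f l i (E i)) E' := by
        rw [h1, pow_one]
        congr 1
      have h4 := htr l
      rw [h3, ← Algebra.smul_def, map_smul, smul_eq_mul] at h4
      rw [h4, hδ]
    have hdet : (Matrix.of fun i j => D i (yL j) : Matrix (Fin n) (Fin n) L).det =
        (Matrix.of fun i j => D i (yP j) : Matrix (Fin n) (Fin n) L).det * c := by
      rw [hc, ← Matrix.det_mul]
      congr 1
      ext i j
      rw [Matrix.of_apply, Matrix.mul_apply]
      have h1 := Pool.Agent.W73.PG.PULL.expand yP hl.bas EP hl.dual (D i)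
      conv_lhs => rw [← h1]
      rw [Pool.Agent.Y172.sum_smul_apply]
      rfl
    have hval : (Matrix.of fun i j => D i (yL j) : Matrix (Fin n) (Fin n) L).det ^ m *
        (g * ∏ l, Algebra.trace L M (rel F u y e (fun i => f l i (E i)) E')) =
        (Matrix.of fun i j => D i (yP j) : Matrix (Fin n) (Fin n) L).det ^ m *
          ((g * δ ^ m) * ∏ l, t l) := by
      have h1 : c ^ m * ∏ l, Algebra.trace L M (rel F u y e (fun i => f l i (E i)) E') =
          δ ^ m * ∏ l, t l := by
        have h2 : ∏ l : Fin m, (c * Algebra.trace L M (rel F u y e (fun i => f l i (E i)) E')) =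
            ∏ l : Fin m, (δ * t l) := Finset.prod_congr rfl fun l _ => hG l
        rw [Finset.prod_mul_distrib, Finset.prod_mul_distrib, Finset.prod_const, Finset.prod_const,
          Finset.card_univ, Fintype.card_fin] at h2
        exact h2
      rw [hdet, mul_pow]
      linear_combination ((Matrix.of fun i j => D i (yP j) :
        Matrix (Fin n) (Fin n) L).det ^ m * g) * h1
    have hreg : P.Reg ((Matrix.of fun i j => D i (yL j) : Matrix (Fin n) (Fin n) L).det ^ m *
        (g * ∏ l, Algebra.trace L M (rel F u y e (fun i => f l i (E i)) E'))) := by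
      rw [hval]
      have hpow : ∀ (x : L), P.Reg x → ∀ q : ℕ, P.Reg (x ^ q) := by
        intro x hx q
        induction q with
        | zero => rw [pow_zero]; exact P.reg_one
        | succ q ih => rw [pow_succ]; exact P.reg_mul ih hx
      have hprod : ∀ s : Finset (Fin m), P.Reg (∏ l ∈ s, t l) := by
        intro s
        induction s using Finset.induction_on with
        | empty => simpa using P.reg_one
        | insert a s ha ih =>
          rw [Finset.prod_insert ha]
          exact P.reg_mul (ht a) ih
      refine P.reg_mul (hpow _ ?_ m) (P.reg_mul hgs (hprod _))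
      have h9 : Ge P 0 (Matrix.of fun i j => D i (yP j) : Matrix (Fin n) (Fin n) L).det :=
        Pool.Agent.W619.PQ.ge_det P _ fun a b => hD a _ (hl.reg b)
      exact h9
    exact Pool.Agent.W303.PG.dom_of_reg hreg

end

end Pool.Agent.H48.AB
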