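import Pool.Agent.H48.AB.Form

/-!
The pluricanonical image of varieties dominated by `Y × ∏ W i` over an orbifold base `Y`.
-/

set_option autoImplicit false
set_option linter.overlappingInstances false
set_option linter.unusedSectionVars false

open FF IntermediateField
open Pool.Agent.W602.GT Pool.Agent.W603.LV Pool.Agent.W619.PQ Pool.Agent.W619.TW
  Pool.Agent.W619.Y Q36.SD Q36.PT H84.AB

namespace Pool.Agent.H48.AB

section

variable {k F : Type} [Field k] [CharZero k] [Field F] [Algebra k F] {w : ℕ}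

/-- a transcendence basis which contains given independent functions -/
theorem exists_basis_of_indep (hw : Algebra.trdeg k F = w) {h : ℕ} {x : Fin h → F}
    (hx : AlgebraicIndependent k x) :
    ∃ (t : Fin w → F) (H : Finset (Fin w)), IsTranscendenceBasis k t ∧ H.card = h ∧
      ∀ l ∈ H, ∃ j, t l = x j := by
  classical
  obtain ⟨s, hs1, hs2⟩ := exists_isTranscendenceBasis_superset hx.coe_range
  have h1 := hs2.cardinalMk_eq_trdeg
  rw [hw] at h1
  have h2 : Cardinal.lift.{0} (Cardinal.mk s) = Cardinal.lift.{0} (Cardinal.mk (Fin w)) := by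
    rw [h1]
    simp
  obtain ⟨e⟩ := Cardinal.lift_mk_eq'.1 h2
  have hinj : Function.Injective x := hx.injective
  refine ⟨fun l => (e.symm l : F), Finset.univ.filter fun l => (e.symm l : F) ∈ Set.range x,
    hs2.comp_equiv e.symm, ?_, ?_⟩
  · have h3 : (Finset.univ.filter fun l => (e.symm l : F) ∈ Set.range x) =
        Finset.univ.image fun j : Fin h => e ⟨x j, hs1 ⟨j, rfl⟩⟩ := by
      ext l
      simp only [Finset.mem_filter, Finset.mem_univ, true_and, Finset.mem_image]
      constructor
      · rintro ⟨j, hj⟩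
        refine ⟨j, ?_⟩
        rw [← e.symm.injective.eq_iff, Equiv.symm_apply_apply]
        exact Subtype.ext hj
      · rintro ⟨j, rfl⟩
        exact ⟨j, by rw [Equiv.symm_apply_apply]⟩
    rw [h3, Finset.card_image_of_injective, Finset.card_univ, Fintype.card_fin]
    intro a b hab
    exact hinj (congrArg Subtype.val (e.injective hab))
  · intro l hl
    obtain ⟨j, hj⟩ := (Finset.mem_filter.1 hl).2
    exact ⟨j, hj.symm⟩

end

section

variable {k L M : Type} [Field k] [CharZero k] [Field L] [Field M]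
  [Algebra k L] [Algebra k M] [Algebra L M] [IsScalarTower k L M] [FiniteDimensional L M]
  [Algebra.EssFiniteType k L] {r n w0 : ℕ} (F0 : IntermediateField k L)
  (F : Fin r → IntermediateField k M)
  [hF : ∀ i, Algebra.EssFiniteType k (F i)] {w : Fin r → ℕ} {p : Fin r → ℕ}

/-- **The dimension of the pluricanonical image.** -/
theorem image_rel (hr : 0 < r) (hnM : Algebra.trdeg k M = n)
    (y0 : Fin w0 → F0) (hy0 : IsTranscendenceBasis k y0)
    (halg : Algebra.IsAlgebraic
      ↥(F0.map (IsScalarTower.toAlgHom k L M) ⊔ ⨆ i, F i : IntermediateField k M) M)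
    (hw : ∀ i, Algebra.trdeg k (F i) = w i) (hsum : w0 + ∑ i, w i = n)
    (hJA : ∀ i, JetAmple k (F i) (w i) (p i))
    (B : Finset (Fin r))
    (hB : ∀ i ∈ B, 2 * Module.finrank L (IntermediateField.adjoin L (F i : Set M)) ≤ p i + 1)
    (hQ : ∀ Q : Finset (Fin r), Disjoint Q B →
      Module.finrank (IntermediateField.adjoin L {z : M | ∃ j, j ∉ Q ∧ z ∈ F j}) M = 1 ∨
      2 * Module.finrank (IntermediateField.adjoin L {z : M | ∃ j, j ∉ Q ∧ z ∈ F j}) M ≤
        1 + ∑ j ∈ Q, p j)
    (m' h0 : ℕ) (g : Fin (h0 + 1) → F0) (hg0 : g 0 ≠ 0)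
    (hgi : AlgebraicIndependent k (fun l : Fin h0 => g l.succ / g 0))
    (hg : ∀ l, ∀ P : Place k L, Divisorial n P → ∀ D : Fin w0 → Derivation k L L,
      (∀ i, DerReg P (D i)) →
        P.Reg ((g l : L) * (Matrix.of fun i j => D i (y0 j : L)).det ^ (m' + 1)))
    (h : Fin r → ℕ) (hh : ∀ i, (1 ≤ p i ∧ h i = w i) ∨
      ImageGe k (F i) (w i) (fun _ => False) 1 (h i)) :
    ImageGe k L n (fun _ => False) (m' + 1) (h0 + ∑ i, h i) := by
  classical
  have hessM : Algebra.EssFiniteType k M := Q36.HB.ess_up k L M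
  have hn : Algebra.trdeg k L = n := trdeg_below (K := M) hnM
  obtain ⟨yL, E0, hyL, hE0⟩ := Pool.Agent.Y172.exists_crd (k := k) (K := L) hn
  choose E' hE' using fun i => Pool.Agent.Y172.exists_lift (L := M) hn (E0 i)
  have hEd := Pool.Agent.Y172.lift_dual hE0 hE'
  choose y E hy hE hJ using hJA
  let e : Fin n ≃ (Fin w0 ⊕ (Σ i, Fin (w i))) := ((finCongr hsum).symm.trans
    finSumFinEquiv.symm).trans (Equiv.sumCongr (Equiv.refl _) finSigmaFinEquiv.symm)
  have hby := basis_rel F0 F halg hnM y0 hy0 y hy e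
  let u : Fin w0 → L := fun c => (y0 c : L)
  have hu : AlgebraicIndependent k u :=
    hy0.1.map' (f := F0.val) F0.val.injective
  -- the second basis
  have hw0 : Algebra.trdeg k F0 = w0 := by
    rw [← hy0.cardinalMk_eq_trdeg]
    simp
  obtain ⟨t0, H0, ht0, hH0, htH0⟩ := exists_basis_of_indep hw0 hgi
  have hex : ∀ i, ∃ (t : Fin (w i) → F i) (H : Finset (Fin (w i))), IsTranscendenceBasis k t ∧
      H.card = h i ∧ (1 ≤ p i ∨
      ∀ l ∈ H, ∃ f0 f1 : Can k (F i) (w i), f0.1 (E i) ≠ 0 ∧ t l = f1.1 (E i) / f0.1 (E i)) := by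
    intro i
    rcases hh i with ⟨h1, h2⟩ | h1
    · exact ⟨y i, Finset.univ, hy i, by rw [Finset.card_univ, Fintype.card_fin, h2], Or.inl h1⟩
    · obtain ⟨t, H, h2, h3, h4⟩ := exists_ratio_basis (hw i) (hy i) (hE i) h1
      exact ⟨t, H, h2, h3, Or.inr h4⟩
  choose t H ht hH htH using hex
  have hbt := basis_rel F0 F halg hnM t0 ht0 t ht e
  let T : Matrix (Fin n) (Fin n) M := Matrix.of fun a b =>
    E' a (Sum.elim (fun c => algebraMap L M (y0 c : L))
      (fun x : (Σ i, Fin (w i)) => (y x.1 x.2 : M)) (e b))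
  have hT : T.det ≠ 0 := jac_ne hby hEd
  let J : M := T.det
  -- the traces
  have hrel : ∀ f : ∀ i, Can k (F i) (w i), rel F u y e (fun i => (f i).1 (E i)) E' =
      J * ∏ i, (((f i).1 (E i) : F i) : M) := by
    intro f
    unfold rel
    rw [mul_comm]
    congr 2
    ext a b
    rw [Matrix.of_apply]
    change _ = E' a _
    rcases e b with c | x
    · rfl
    · rfl
  let v : F0 → (Fin (m' + 1) → ∀ i, Can k (F i) (w i)) → L := fun g f =>
    (g : L) * ∏ l, Algebra.trace L M (J * ∏ i, (((f l i).1 (E i) : F i) : M))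
  have hsec : ∀ (j : Fin (h0 + 1)) (f : Fin (m' + 1) → ∀ i, Can k (F i) (w i)),
      IsSec k L n (fun _ => False) {1} (m' + 1) 0
        (fun D => (Matrix.of fun i j => D i (yL j)).det ^ (m' + 1) * v (g j) f) := by
    intro j f
    have h1 := form_sec F hn hw hy hE e hyL hE0 hE' hu (m := m' + 1) (g := (g j : L)) (hg j)
      (fun l i => (f l i).1) (fun l i => (f l i).2.1) (fun l i => (f l i).2.2)
    have h2 : ∀ l, rel F u y e (fun i => (f l i).1 (E i)) E' =
      J * ∏ i, (((f l i).1 (E i) : F i) : M) := fun l => hrel (f l)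
    simp only [h2] at h1
    exact h1
  have hchar : CharZero L := charZero_of_injective_algebraMap (algebraMap k L).injective
  have hsep : Algebra.IsSeparable L M := inferInstance
  have hΩ := AlgHom.card L M (AlgebraicClosure M)
  have hpos : 0 < Module.finrank L M := Module.finrank_pos
  obtain ⟨σ0⟩ : Nonempty (M →ₐ[L] AlgebraicClosure M) :=
    Fintype.card_pos_iff.1 (by rw [hΩ]; exact hpos)
  -- a nonzero form
  obtain ⟨f0, hG0⟩ : ∃ f : ∀ i, Can k (F i) (w i),
      Algebra.trace L M (J * ∏ i, (((f i).1 (E i) : F i) : M)) ≠ 0 := by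
    by_contra hcon
    push Not at hcon
    have h1 := hall_val (Ω := AlgebraicClosure M) F hJ B hB hQ hr σ0 (fun σ => σ J) (fun f => by
      have h2 := trace_eq_sum_embeddings (K := L) (L := M)
        (x := J * ∏ i, (((f i).1 (E i) : F i) : M)) (AlgebraicClosure M)
      rw [hcon f, map_zero] at h2
      rw [h2]
      refine Finset.sum_congr rfl fun σ _ => ?_
      rw [map_mul, map_prod]
      rfl)
    exact hT ((map_eq_zero σ0).1 h1)
  set G0 := Algebra.trace L M (J * ∏ i, (((f0 i).1 (E i) : F i) : M)) with hG0e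
  let A : Set L := {x | (∃ j : Fin h0, x = ((g j.succ / g 0 : F0) : L)) ∨
    ∃ f : ∀ i, Can k (F i) (w i),
      x = Algebra.trace L M (J * ∏ i, (((f i).1 (E i) : F i) : M)) / G0}
  let Ht : Finset (Fin n) := (H0.disjSum (Finset.univ.sigma H)).map e.symm.toEmbedding
  have hHt : Ht.card = h0 + ∑ i, h i := by
    rw [Finset.card_map, Finset.card_disjSum, Finset.card_sigma, hH0]
    congr 1
    exact Finset.sum_congr rfl fun i _ => hH i
  obtain ⟨x, hxA, hx⟩ := Q36.HB.exists_indep hn A hbt Ht (by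
    intro d d' hd hA b hb
    have hb' : e b ∈ H0.disjSum (Finset.univ.sigma H) := by
      have := Finset.mem_map_equiv.1 hb
      exact this
    rcases hcase : e b with c | x0
    · rw [hcase, Finset.inl_mem_disjSum] at hb'
      obtain ⟨j, hj⟩ := htH0 c hb'
      change d' (algebraMap L M (t0 c : L)) = 0
      have h1 := hA _ (Or.inl ⟨j, rfl⟩)
      rw [hd, hj, h1, map_zero]
    · rw [hcase, Finset.inr_mem_disjSum] at hb'
      have hb2 : x0.2 ∈ H x0.1 := (Finset.mem_sigma.1 hb').2
      have hrel := hall_der (Ω := AlgebraicClosure M) F hJ B hB hQ x0.1 σ0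
        (fun σ => σ (d' J - algebraMap L M (d G0 / G0) * J))
        (fun i σ c => σ (J * d' (y i c : M))) (fun f => by
          refine relation F hy hE J d d' hd (d G0 / G0) (f := fun i => (f i).1 (E i)) ?_
          have h2 := hA _ (Or.inr ⟨f, rfl⟩)
          have h3 : d (Algebra.trace L M (J * ∏ i, (((f i).1 (E i) : F i) : M)) / G0 * G0) =
              d (Algebra.trace L M (J * ∏ i, (((f i).1 (E i) : F i) : M))) := by
            rw [div_mul_cancel₀ _ hG0]
          rw [d.leibniz, h2, smul_zero, add_zero, smul_eq_mul] at h3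
          rw [← h3]
          ring)
      change d' (t x0.1 x0.2 : M) = 0
      have hexp : ∀ z : F x0.1, d' (z : M) =
          ∑ c, ((E x0.1 c z : F x0.1) : M) * d' (y x0.1 c : M) := fun z =>
        Pool.Agent.W308.PG.YLOC.expand (y x0.1) (E x0.1) (hy _) (hE _) d' z
      rcases htH x0.1 with h1 | h1
      · have h2 := hrel.1 h1
        rw [hexp]
        refine Finset.sum_eq_zero fun c _ => ?_
        have h3 : σ0 (J * d' (y x0.1 c : M)) = 0 := congrFun h2 c
        have h4 := (mul_eq_zero.1 ((map_eq_zero σ0).1 h3)).resolve_left hT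
        rw [h4, mul_zero]
      · obtain ⟨g0, g1, hg0, hg⟩ := h1 _ hb2
        have h2 := hrel.2 g0 g1
        have h3 : ∀ z : F x0.1, ∑ a, σ0 (J * d' (y x0.1 a : M)) *
            rs (F x0.1) σ0 (E x0.1 a z) = σ0 (J * d' (z : M)) := by
          intro z
          rw [hexp z, Finset.mul_sum, map_sum]
          refine Finset.sum_congr rfl fun a _ => ?_
          rw [rs_apply, ← map_mul]
          congr 1
          ring
        rw [h3, h3, rs_apply, rs_apply, ← map_mul, ← map_mul] at h2
        have h4 := σ0.toRingHom.injective h2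
        have hg0' : ((g0.1 (E x0.1) : F x0.1) : M) ≠ 0 := fun h5 => hg0 (Subtype.ext h5)
        have h5 : ((g0.1 (E x0.1) : F x0.1) : M) * d' ((g1.1 (E x0.1) : F x0.1) : M) =
            ((g1.1 (E x0.1) : F x0.1) : M) * d' ((g0.1 (E x0.1) : F x0.1) : M) := by
          refine mul_left_cancel₀ hT ?_
          change J * _ = J * _
          linear_combination h4
        have h6 : (t x0.1 x0.2 : M) * ((g0.1 (E x0.1) : F x0.1) : M) =
            ((g1.1 (E x0.1) : F x0.1) : M) := by
          rw [hg]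
          push_cast
          rw [div_mul_cancel₀ _ hg0']
        have h7 := congrArg d' h6
        rw [d'.leibniz, smul_eq_mul, smul_eq_mul] at h7
        have h8 : ((g0.1 (E x0.1) : F x0.1) : M) * (((g0.1 (E x0.1) : F x0.1) : M) *
            d' (t x0.1 x0.2 : M)) = 0 := by
          rw [← h6] at h5
          have h9 : ((g0.1 (E x0.1) : F x0.1) : M) *
              d' ((t x0.1 x0.2 : M) * ((g0.1 (E x0.1) : F x0.1) : M)) =
              ((g0.1 (E x0.1) : F x0.1) : M) * ((t x0.1 x0.2 : M) *
                d' ((g0.1 (E x0.1) : F x0.1) : M) +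
                ((g0.1 (E x0.1) : F x0.1) : M) * d' (t x0.1 x0.2 : M)) := by
            rw [d'.leibniz, smul_eq_mul, smul_eq_mul]
          rw [h9] at h5
          linear_combination h5
        exact ((mul_eq_zero.1 h8).resolve_left hg0' |> mul_eq_zero.1).resolve_left hg0')
  -- the sections
  let v0 : L := v (g 0) fun _ => f0
  have hg0L : (g 0 : L) ≠ 0 := fun h5 => hg0 (Subtype.ext h5)
  have hv0 : v0 = (g 0 : L) * (G0 * G0 ^ m') := by
    change (g 0 : L) * ∏ _l : Fin (m' + 1), G0 = _
    rw [Finset.prod_const, Finset.card_univ, Fintype.card_fin, pow_succ']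
  have hv0' : v0 ≠ 0 := by
    rw [hv0]
    exact mul_ne_zero hg0L (mul_ne_zero hG0 (pow_ne_zero _ hG0))
  have hsx : ∀ z ∈ A, ∃ v1 : L, v1 / v0 = z ∧ IsSec k L n (fun _ => False) {1} (m' + 1) 0
      (fun D => (Matrix.of fun i j => D i (yL j)).det ^ (m' + 1) * v1) := by
    rintro z (⟨j, rfl⟩ | ⟨f, rfl⟩)
    · refine ⟨v (g j.succ) fun _ => f0, ?_, hsec _ _⟩
      have h1 : (v (g j.succ) fun _ => f0) = (g j.succ : L) * (G0 * G0 ^ m') := by
        change (g j.succ : L) * ∏ _l : Fin (m' + 1), G0 = _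
        rw [Finset.prod_const, Finset.card_univ, Fintype.card_fin, pow_succ']
      rw [h1, hv0]
      push_cast
      rw [mul_div_mul_right _ _ (mul_ne_zero hG0 (pow_ne_zero _ hG0))]
    · refine ⟨v (g 0) (Fin.cons f fun _ => f0), ?_, hsec _ _⟩
      have h1 : v (g 0) (Fin.cons f fun _ => f0) = (g 0 : L) *
          (Algebra.trace L M (J * ∏ i, (((f i).1 (E i) : F i) : M)) * G0 ^ m') := by
        change (g 0 : L) * ∏ l : Fin (m' + 1), Algebra.trace L M (J * ∏ i,
          ((((Fin.cons f fun _ => f0 : Fin (m' + 1) → ∀ i, Can k (F i) (w i)) l i).1 (E i) :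
            F i) : M)) = _
        rw [Fin.prod_univ_succ]
        simp only [Fin.cons_zero, Fin.cons_succ]
        rw [Finset.prod_const, Finset.card_univ, Fintype.card_fin]
      rw [h1, hv0, mul_div_mul_left _ _ hg0L, mul_div_mul_right _ _ (pow_ne_zero _ hG0)]
  choose v1 hv1 hv1s using fun l => hsx _ (hxA l)
  have hv1n : ∀ l, v1 l ≠ 0 := by
    intro l h1
    have h2 := hx.transcendental l
    rw [← hv1 l, h1, zero_div] at h2
    exact h2 isAlgebraic_zero
  have hdet1 : (Matrix.of fun i j => E0 i (yL j) : Matrix (Fin n) (Fin n) L).det = 1 := by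
    have : (Matrix.of fun i j => E0 i (yL j) : Matrix (Fin n) (Fin n) L) = 1 := by
      ext i j
      rw [Matrix.of_apply, hE0, Matrix.one_apply]
    rw [this, Matrix.det_one]
  have hE0v : ∀ z : L, (Matrix.of fun i j => E0 i (yL j) : Matrix (Fin n) (Fin n) L).det ^
      (m' + 1) * z = z := by
    intro z
    rw [hdet1, one_pow, one_mul]
  let Ω : L → (Fin n → Derivation k L L) → L := fun z D =>
    (Matrix.of fun i j => D i (yL j)).det ^ (m' + 1) * z
  rw [← hHt]
  refine ⟨Fin.cons (Ω v0) fun l => Ω (v1 l), fun l => ?_, E0, fun l => ?_, ?_⟩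
  · refine Fin.cases ?_ (fun l => ?_) l
    · rw [Fin.cons_zero]
      exact hsec 0 fun _ => f0
    · rw [Fin.cons_succ]
      exact hv1s l
  · refine Fin.cases ?_ (fun l => ?_) l
    · rw [Fin.cons_zero]
      change _ * v0 ≠ 0
      rw [hE0v]
      exact hv0'
    · rw [Fin.cons_succ]
      change _ * v1 l ≠ 0
      rw [hE0v]
      exact hv1n l
  · have h1 : (fun l : Fin Ht.card =>
        (Fin.cons (Ω v0) (fun l => Ω (v1 l)) : Fin (_ + 1) → (Fin n → Derivation k L L) → L)
          l.succ E0 / (Fin.cons (Ω v0) (fun l => Ω (v1 l)) :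
            Fin (_ + 1) → (Fin n → Derivation k L L) → L) 0 E0) = x := by
      funext l
      rw [Fin.cons_succ, Fin.cons_zero]
      change (_ * v1 l) / (_ * v0) = _
      rw [hE0v, hE0v, hv1 l]
    rw [h1]
    exact hx

/-- **Pull-backs of regular pluricanonical forms of the base are regular.** -/
theorem pull_base [Algebra.EssFiniteType k F0] (hn : Algebra.trdeg k L = n)
    (hw0 : Algebra.trdeg k F0 = w0) {y0 : Fin w0 → F0}
    {E : Fin w0 → Derivation k F0 F0} (hy0 : IsTranscendenceBasis k y0)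
    (hE : ∀ a b, E a (y0 b) = if a = b then 1 else 0) {m : ℕ}
    {ω : (Fin w0 → Derivation k F0 F0) → F0} (hω : IsPluri m ω)
    (hreg : ∀ P : Place k F0, Divisorial w0 P → RegAt P ω)
    (P : Place k L) (hP : Divisorial n P) (D : Fin w0 → Derivation k L L)
    (hD : ∀ i, DerReg P (D i)) :
    P.Reg ((ω E : L) * (Matrix.of fun i j => D i (y0 j : L)).det ^ m) := by
  classical
  obtain ⟨Z, z, hz, hyz, hge⟩ := pYLOC.{0, 0} k L F0 w0 n m hw0 hn (fun y hy => fin_over y hy)
    ω hω hreg y0 E hy0 hE P hP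
  have e1 : (Matrix.of fun i j => D i (y0 j : L) : Matrix (Fin w0) (Fin w0) L) =
      (Matrix.of fun i c => D i (z c)) * Z.transpose := by
    ext i j
    rw [Matrix.of_apply, Matrix.mul_apply, hyz (D i) j]
    refine Finset.sum_congr rfl fun c _ => ?_
    rw [Matrix.of_apply, Matrix.transpose_apply, mul_comm]
  rw [e1, Matrix.det_mul, Matrix.det_transpose]
  have e2 : (ω E : L) * ((Matrix.of fun i c => D i (z c) : Matrix (Fin w0) (Fin w0) L).det *
      Z.det) ^ m = ((ω E : L) * Z.det ^ m) *
        (Matrix.of fun i c => D i (z c) : Matrix (Fin w0) (Fin w0) L).det ^ m := by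
    rw [mul_pow]
    ring
  rw [e2]
  have hpow : ∀ (x : L), P.Reg x → ∀ q : ℕ, P.Reg (x ^ q) := by
    intro x hx q
    induction q with
    | zero => rw [pow_zero]; exact P.reg_one
    | succ q ih => rw [pow_succ]; exact P.reg_mul ih hx
  refine P.reg_mul hge (hpow _ ?_ m)
  have h9 : Ge P 0 (Matrix.of fun i c => D i (z c) : Matrix (Fin w0) (Fin w0) L).det :=
    Pool.Agent.W619.PQ.ge_det P _ fun a b => hD a _ (hz b)
  exact h9

end

end Pool.Agent.H48.AB
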