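import Pool.Agent.H84.AB.Im
import Pool.Agent.H84.AB.Nu

/-!
Local lemmas for the relative version: minors of least order, exterior products of regular
`1`-forms with canonical forms of the factors, transcendence bases.
-/

set_option autoImplicit false
set_option linter.overlappingInstances false
set_option linter.unusedSectionVars false

open FF IntermediateField
open Pool.Agent.W602.GT Pool.Agent.W603.LV Pool.Agent.W619.PQ Pool.Agent.W619.TW
  Pool.Agent.W619.Y Q36.SD

namespace Pool.Agent.H48.AB

section

variable {k L : Type} [Field k] [Field L] [Algebra k L]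

/-- a maximal minor of least order -/
theorem exists_best (P : Place k L) {w0 n : ℕ} (N : Matrix (Fin w0) (Fin n) L)
    (h : ∃ s : Fin w0 → Fin n, (N.submatrix id s).det ≠ 0) :
    ∃ s : Fin w0 → Fin n, (N.submatrix id s).det ≠ 0 ∧
      ∃ N' : Matrix (Fin w0) (Fin n) L, N = N.submatrix id s * N' ∧ ∀ i j, P.Reg (N' i j) := by
  classical
  obtain ⟨s0, hs0⟩ := h
  obtain ⟨s, hs, hmin⟩ := Finset.exists_min_image
    (Finset.univ.filter fun s : Fin w0 → Fin n => (N.submatrix id s).det ≠ 0)
    (fun s => P.ord (N.submatrix id s).det) ⟨s0, by simpa using hs0⟩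
  have hs1 : (N.submatrix id s).det ≠ 0 := by simpa using hs
  refine ⟨s, hs1, Matrix.of fun j b =>
    (N.submatrix id (Function.update s j b)).det / (N.submatrix id s).det, ?_, ?_⟩
  · ext i b
    have h1 := congrFun (Matrix.mulVec_cramer (N.submatrix id s) fun i => N i b) i
    have h2 : ∀ j, Matrix.cramer (N.submatrix id s) (fun i => N i b) j =
        (N.submatrix id (Function.update s j b)).det := by
      intro j
      rw [Matrix.cramer_apply]
      congr 1
      ext a c
      by_cases hc : c = j
      · subst hc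
        simp
      · simp [Matrix.updateCol_ne hc, Function.update_of_ne hc]
    rw [Matrix.mul_apply]
    simp only [Matrix.of_apply]
    rw [Matrix.mulVec, dotProduct] at h1
    simp only [h2, Pi.smul_apply, smul_eq_mul] at h1
    have h3 : ∑ j, N.submatrix id s i j *
        ((N.submatrix id (Function.update s j b)).det / (N.submatrix id s).det) =
        (∑ j, N.submatrix id s i j * (N.submatrix id (Function.update s j b)).det) /
          (N.submatrix id s).det := by
      rw [Finset.sum_div]
      exact Finset.sum_congr rfl fun j _ => by ring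
    rw [h3, h1, mul_div_cancel_left₀ _ hs1]
  · intro j b
    rw [Matrix.of_apply]
    by_cases h0 : (N.submatrix id (Function.update s j b)).det = 0
    · rw [h0, zero_div]
      exact P.reg_zero
    · right
      rw [P.ord_div h0 hs1]
      have h1 := hmin (Function.update s j b) (by simpa using h0)
      omega

/-- expansion of the determinant of a product -/
theorem det_mul_expand {w0 n : ℕ} (N : Matrix (Fin w0) (Fin n) L) (R : Matrix (Fin n) (Fin w0) L) :
    (N * R).det = ∑ s : Fin w0 → Fin n, (∏ i, R (s i) i) * (N.submatrix id s).det := by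
  classical
  rw [← Matrix.det_transpose]
  have h1 : (N * R).transpose = fun i => ∑ a, R a i • N.transpose a := by
    funext i j
    rw [Matrix.transpose_apply, Matrix.mul_apply, Finset.sum_apply]
    exact Finset.sum_congr rfl fun a _ => mul_comm _ _
  have h2 : (N * R).transpose.det = Matrix.detRowAlternating (N * R).transpose := rfl
  rw [h2, h1]
  have h3 := (Matrix.detRowAlternating (n := Fin w0) (R := L)).toMultilinearMap.map_sum
    (fun i a => R a i • N.transpose a)
  refine Eq.trans h3 ?_
  refine Finset.sum_congr rfl fun s _ => ?_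
  have h4 := (Matrix.detRowAlternating (n := Fin w0) (R := L)).toMultilinearMap.map_smul_univ
    (fun i => R (s i) i) (fun i => N.transpose (s i))
  refine Eq.trans h4 ?_
  rw [smul_eq_mul]
  congr 1
  rw [← Matrix.det_transpose (N.submatrix id s)]
  rfl

end

section

variable {k L : Type} [Field k] [CharZero k] [Field L] [Algebra k L]

/-- vector fields dual to independent functions -/
theorem exists_dual_family {w0 : ℕ} {u : Fin w0 → L} (hu : AlgebraicIndependent k u) :
    ∃ D : Fin w0 → Derivation k L L, ∀ i j, D i (u j) = if i = j then 1 else 0 := by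
  classical
  obtain ⟨s, hs1, hs2⟩ := exists_isTranscendenceBasis_superset hu.coe_range
  have hmem : ∀ i, u i ∈ s := fun i => hs1 ⟨i, rfl⟩
  choose D hD using fun a : s => exists_dual (fun i : s => (i : L)) hs2 a
  refine ⟨fun i => D ⟨u i, hmem i⟩, fun i j => ?_⟩
  have h1 := hD ⟨u i, hmem i⟩ ⟨u j, hmem j⟩
  rw [h1]
  by_cases hij : i = j
  · subst hij
    simp
  · rw [if_neg hij, if_neg]
    intro h
    exact hij (hu.injective (congrArg Subtype.val h)).symm

theorem exists_minor {n w0 : ℕ} {y : Fin n → L} {E : Fin n → Derivation k L L}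
    (hy : IsTranscendenceBasis k y) (hE : ∀ i j, E i (y j) = if i = j then 1 else 0)
    {u : Fin w0 → L} (hu : AlgebraicIndependent k u) :
    ∃ s : Fin w0 → Fin n,
      ((Matrix.of fun j a => E a (u j) : Matrix (Fin w0) (Fin n) L).submatrix id s).det ≠ 0 := by
  classical
  obtain ⟨D, hD⟩ := exists_dual_family hu
  by_contra hcon
  push Not at hcon
  have h1 : (Matrix.of fun j a => E a (u j) : Matrix (Fin w0) (Fin n) L) *
      (Matrix.of fun a i => D i (y a) : Matrix (Fin n) (Fin w0) L) = 1 := by
    ext j i
    rw [Matrix.mul_apply, Matrix.one_apply]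
    have h2 := Pool.Agent.W73.PG.PULL.expand y hy E hE (D i)
    have h3 : D i (u j) = ∑ a, D i (y a) * E a (u j) := by
      conv_lhs => rw [← h2]
      rw [Pool.Agent.Y172.sum_smul_apply]
    rw [hD] at h3
    rw [show (if j = i then (1 : L) else 0) = if i = j then 1 else 0 by simp [eq_comm], h3]
    exact Finset.sum_congr rfl fun a _ => by simp [mul_comm]
  have h2 := det_mul_expand (Matrix.of fun j a => E a (u j) : Matrix (Fin w0) (Fin n) L)
    (Matrix.of fun a i => D i (y a) : Matrix (Fin n) (Fin w0) L)
  rw [h1, Matrix.det_one] at h2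
  rw [Finset.sum_eq_zero fun s _ => by rw [hcon s, mul_zero]] at h2
  exact one_ne_zero h2

end

section

variable {k M : Type} [Field k] [CharZero k] [Field M] [Algebra k M]
  {r n w0 : ℕ} (F : Fin r → IntermediateField k M) {w : Fin r → ℕ}

/-- the exterior product of `1`-forms `∑ N c t d(u t)` and of canonical forms, in coordinates -/
noncomputable def wedge (N : Matrix (Fin w0) (Fin n) M) (u : Fin n → M)
    (y : ∀ i, Fin (w i) → F i) (e : Fin n ≃ (Fin w0 ⊕ (Σ i, Fin (w i))))
    (a : ∀ i, F i) (D : Fin n → Derivation k M M) : M :=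
  (∏ i, (a i : M)) * (Matrix.of fun s b => Sum.elim (fun c => ∑ t, N c t * D s (u t))
    (fun x : (Σ i, Fin (w i)) => D s (y x.1 x.2 : M)) (e b)).det

theorem wedge_pluri (N : Matrix (Fin w0) (Fin n) M) (u : Fin n → M)
    (y : ∀ i, Fin (w i) → F i) (e : Fin n ≃ (Fin w0 ⊕ (Σ i, Fin (w i)))) (a : ∀ i, F i) :
    IsPluri 1 (wedge F N u y e a) := by
  intro A D
  unfold wedge
  have e1 : (Matrix.of fun s b => Sum.elim (fun c => ∑ t, N c t * (∑ j, A s j • D j) (u t))
      (fun x : (Σ i, Fin (w i)) => (∑ j, A s j • D j) (y x.1 x.2 : M)) (e b)) =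
      A * Matrix.of fun s b => Sum.elim (fun c => ∑ t, N c t * D s (u t))
        (fun x : (Σ i, Fin (w i)) => D s (y x.1 x.2 : M)) (e b) := by
    ext s b
    rw [Matrix.of_apply, Matrix.mul_apply]
    simp only [Matrix.of_apply]
    rcases e b with c | x
    · simp only [Sum.elim_inl]
      have h1 : ∀ t, N c t * (∑ j, A s j • D j) (u t) = ∑ j, A s j * (N c t * D j (u t)) := by
        intro t
        rw [Pool.Agent.Y172.sum_smul_apply, Finset.mul_sum]
        exact Finset.sum_congr rfl fun j _ => by ring
      rw [Finset.sum_congr rfl fun t _ => h1 t, Finset.sum_comm]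
      exact Finset.sum_congr rfl fun j _ => by rw [Finset.mul_sum]
    · simp only [Sum.elim_inr]
      exact Pool.Agent.Y172.sum_smul_apply ..
  rw [e1, Matrix.det_mul, pow_one]
  ring

/-- **The exterior product of regular `1`-forms and regular canonical forms of the factors is
regular.** -/
theorem wedge_reg [∀ i, Algebra.EssFiniteType k (F i)] (hn : Algebra.trdeg k M = n)
    (hw : ∀ i, Algebra.trdeg k (F i) = w i) {y : ∀ i, Fin (w i) → F i}
    {E : ∀ i, Fin (w i) → Derivation k (F i) (F i)} (hy : ∀ i, IsTranscendenceBasis k (y i))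
    (hE : ∀ i a b, E i a (y i b) = if a = b then 1 else 0)
    (e : Fin n ≃ (Fin w0 ⊕ (Σ i, Fin (w i))))
    {ω : ∀ i, (Fin (w i) → Derivation k (F i) (F i)) → F i} (hω : ∀ i, IsPluri 1 (ω i))
    (hreg : ∀ i, ∀ P : Place k (F i), Divisorial (w i) P → RegAt P (ω i))
    (P : Place k M) (hP : Divisorial n P) (N : Matrix (Fin w0) (Fin n) M) (u : Fin n → M)
    (hN : ∀ c t, P.Reg (N c t)) (hu : ∀ t, P.Reg (u t)) :
    RegAt P (wedge F N u y e fun i => ω i (E i)) := by
  classical
  intro D hD
  have h := fun i => pYLOC.{0, 0} k M (F i) (w i) n 1 (hw i) hn (fun y hy => fin_over y hy)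
    (ω i) (hω i) (hreg i) (y i) (E i) (hy i) (hE i) P hP
  choose Z z hz hyz hge using h
  obtain ⟨T, hT⟩ : ∃ T : Matrix (Fin n) (Fin n) M, T = Matrix.of fun s b =>
      Sum.elim (fun c => ∑ t, N c t * D s (u t)) (fun x : (Σ i, Fin (w i)) => D s (z x.1 x.2))
        (e b) := ⟨_, rfl⟩
  have e1 : (Matrix.of fun s b => Sum.elim (fun c => ∑ t, N c t * D s (u t))
      (fun x : (Σ i, Fin (w i)) => D s (y x.1 x.2 : M)) (e b) : Matrix (Fin n) (Fin n) M) =
      T * (Matrix.fromBlocks (1 : Matrix (Fin w0) (Fin w0) M) 0 0
        (Matrix.blockDiagonal' fun i => (Z i).transpose)).submatrix e e := by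
    ext s b
    rw [Matrix.of_apply, Matrix.mul_apply, hT]
    rw [← Equiv.sum_comp e.symm]
    simp only [Matrix.of_apply, Matrix.submatrix_apply, Equiv.apply_symm_apply]
    rw [Fintype.sum_sum_type]
    simp only [Sum.elim_inl, Sum.elim_inr]
    rcases e b with c | x
    · simp only [Sum.elim_inl, Matrix.fromBlocks_apply₁₁, Matrix.fromBlocks_apply₂₁,
        Matrix.zero_apply, mul_zero, Finset.sum_const_zero, add_zero]
      rw [Finset.sum_eq_single c]
      · rw [Matrix.one_apply_eq, mul_one]
      · intro c' _ hc'
        rw [Matrix.one_apply_ne hc', mul_zero]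
      · intro h
        exact absurd (Finset.mem_univ _) h
    · simp only [Sum.elim_inr, Matrix.fromBlocks_apply₁₂, Matrix.fromBlocks_apply₂₂,
        Matrix.zero_apply, mul_zero, Finset.sum_const_zero, zero_add]
      obtain ⟨i0, c0⟩ := x
      rw [hyz i0 (D s) c0]
      rw [← Finset.univ_sigma_univ, Finset.sum_sigma, Finset.sum_eq_single i0]
      · refine Finset.sum_congr rfl fun c _ => ?_
        rw [Matrix.blockDiagonal'_apply]
        simp only [dif_pos]
        rw [Matrix.transpose_apply, mul_comm]
        rfl
      · intro i _ hi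
        refine Finset.sum_eq_zero fun c _ => ?_
        rw [Matrix.blockDiagonal'_apply, dif_neg hi, mul_zero]
      · intro h
        exact absurd (Finset.mem_univ _) h
  change P.Reg ((∏ i, ((ω i (E i) : F i) : M)) *
    (Matrix.of fun s b => Sum.elim (fun c => ∑ t, N c t * D s (u t))
      (fun x : (Σ i, Fin (w i)) => D s (y x.1 x.2 : M)) (e b)).det)
  rw [e1, Matrix.det_mul, Matrix.det_submatrix_equiv_self, Matrix.det_fromBlocks_zero₂₁,
    Matrix.det_one, one_mul, H84.AB.det_blocks]
  have e2 : (∏ i, ((ω i (E i) : F i) : M)) * (T.det * ∏ i, (Z i).transpose.det) =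
      T.det * ∏ i, (((ω i (E i) : F i) : M) * (Z i).det ^ 1) := by
    rw [Finset.prod_mul_distrib]
    simp only [Matrix.det_transpose, pow_one]
    ring
  rw [e2]
  refine P.reg_mul ?_ ?_
  · have h9 : Ge P 0 T.det := by
      rw [hT]
      refine Pool.Agent.W619.PQ.ge_det P _ fun a b => ?_
      rw [Matrix.of_apply]
      rcases e b with c | x
      · simp only [Sum.elim_inl]
        have : ∀ s : Finset (Fin n), P.Reg (∑ t ∈ s, N c t * D a (u t)) := by
          intro s
          induction s using Finset.induction_on with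
          | empty => simpa using P.reg_zero
          | insert a' s ha ih =>
            rw [Finset.sum_insert ha]
            exact P.reg_add (P.reg_mul (hN _ _) (hD a _ (hu _))) ih
        exact this _
      · exact hD a _ (hz _ _)
    exact h9
  · have : ∀ s : Finset (Fin r), P.Reg (∏ i ∈ s, (((ω i (E i) : F i) : M) * (Z i).det ^ 1)) := by
      intro s
      induction s using Finset.induction_on with
      | empty => simpa using P.reg_one
      | insert a s ha ih =>
        rw [Finset.prod_insert ha]
        exact P.reg_mul (hge a) ih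
    exact this _

end

section

variable {k L M : Type} [Field k] [Field L] [Field M] [Algebra k L] [Algebra k M] [Algebra L M]
  [IsScalarTower k L M]

theorem alg_of_basis0 (F0 : IntermediateField k L) (S : IntermediateField k M) {w : ℕ}
    {y : Fin w → F0} (hy : IsTranscendenceBasis k y)
    (hS : ∀ l, algebraMap L M (y l : L) ∈ S) (z : F0) :
    IsAlgebraic S (algebraMap L M (z : L)) := by
  have h := hy.isAlgebraic_field.isAlgebraic z
  have hle : IntermediateField.adjoin k (Set.range y) ≤
      S.comap ((IsScalarTower.toAlgHom k L M).comp F0.val) := by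
    rw [IntermediateField.adjoin_le_iff]
    rintro _ ⟨l, rfl⟩
    exact hS l
  let g : F0 →+* M := (((IsScalarTower.toAlgHom k L M).comp F0.val : F0 →ₐ[k] M) : F0 →+* M)
  let f : IntermediateField.adjoin k (Set.range y) →+* S :=
    (g.comp (algebraMap (IntermediateField.adjoin k (Set.range y)) F0)).codRestrict
      S fun y => hle y.2
  exact h.ringHom_of_comp_eq f g f.injective (by ext y; rfl)

/-- a transcendence basis of a variety which is generically finite over `Y × ∏ W i` -/
theorem basis_rel {r n w0 : ℕ} (F0 : IntermediateField k L) (F : Fin r → IntermediateField k M)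
    (halg : Algebra.IsAlgebraic
      ↥(F0.map (IsScalarTower.toAlgHom k L M) ⊔ ⨆ i, F i : IntermediateField k M) M)
    (hn : Algebra.trdeg k M = n) {w : Fin r → ℕ}
    (y0 : Fin w0 → F0) (hy0 : IsTranscendenceBasis k y0)
    (y : ∀ i, Fin (w i) → F i) (hy : ∀ i, IsTranscendenceBasis k (y i))
    (e : Fin n ≃ (Fin w0 ⊕ (Σ i, Fin (w i)))) :
    IsTranscendenceBasis k (fun b : Fin n => Sum.elim (fun c => algebraMap L M (y0 c : L))
      (fun x : (Σ i, Fin (w i)) => (y x.1 x.2 : M)) (e b)) := by
  have h1 : Algebra.IsAlgebraic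
      (Algebra.adjoin k (Set.range fun b : Fin n =>
        Sum.elim (fun c => algebraMap L M (y0 c : L))
          (fun x : (Σ i, Fin (w i)) => (y x.1 x.2 : M)) (e b))) M := by
    refine alg_adjoin fun z => ?_
    let S : IntermediateField k M :=
      adjoin k (Set.range fun b : Fin n => Sum.elim (fun c => algebraMap L M (y0 c : L))
          (fun x : (Σ i, Fin (w i)) => (y x.1 x.2 : M)) (e b))
    let A : IntermediateField S M := algebraicClosure S M
    have hle : F0.map (IsScalarTower.toAlgHom k L M) ⊔ ⨆ i, F i ≤
        (algebraicClosure S M).restrictScalars k := by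
      refine sup_le ?_ (iSup_le fun i y' hy' => ?_)
      · rintro _ ⟨z0, hz0, rfl⟩
        rw [mem_restrictScalars, mem_algebraicClosure_iff]
        refine alg_of_basis0 F0 S hy0 (fun l => subset_adjoin k _ ⟨e.symm (Sum.inl l), ?_⟩)
          ⟨z0, hz0⟩
        change Sum.elim _ _ (e (e.symm (Sum.inl l))) = _
        rw [Equiv.apply_symm_apply]
        rfl
      · rw [mem_restrictScalars, mem_algebraicClosure_iff]
        refine H84.AB.alg_of_basis (F i) S (hy i)
          (fun l => subset_adjoin k _ ⟨e.symm (Sum.inr ⟨i, l⟩), ?_⟩) ⟨y', hy'⟩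
        change Sum.elim _ _ (e (e.symm (Sum.inr ⟨i, l⟩))) = _
        rw [Equiv.apply_symm_apply]
        rfl
    have hA : ∀ z ∈ F0.map (IsScalarTower.toAlgHom k L M) ⊔ ⨆ i, F i, z ∈ A := fun z hz => by
      have := hle hz
      rwa [mem_restrictScalars] at this
    let f : ↥(F0.map (IsScalarTower.toAlgHom k L M) ⊔ ⨆ i, F i : IntermediateField k M) →+* A :=
      ((F0.map (IsScalarTower.toAlgHom k L M) ⊔ ⨆ i, F i : IntermediateField k M).val :
        ↥(F0.map (IsScalarTower.toAlgHom k L M) ⊔ ⨆ i, F i : IntermediateField k M) →+* M).codRestrict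
        A fun y => hA _ y.2
    have h2 : IsAlgebraic A z := by
      have h3 := halg.isAlgebraic z
      refine h3.ringHom_of_comp_eq f (RingHom.id M) f.injective (by ext y; rfl)
    have h4 : Algebra.IsAlgebraic S A := algebraicClosure.isAlgebraic S M
    exact IsAlgebraic.restrictScalars S h2
  refine Algebra.IsAlgebraic.isTranscendenceBasis_of_lift_le_trdeg_of_finite k _ ?_
  rw [hn]
  simp

end

end Pool.Agent.H48.AB
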